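import Mathlib
import Pool.Agent.Results.MP_155eb7_gt.PowersOfTheLine

/-!
# Powers of the real line which are not base resolvable

For every uncountable strong limit cardinal `κ` of countable cofinality that does not exceed the
first measurable cardinal, the space `ℝ^κ` has a base that cannot be partitioned into two bases.
The construction is that of the file `PowersOfTheLine` (the case `κ = ℶ_ω`), with additional
coordinates `E n` of level `n + 1`, at which all the points `p y` vanish.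
-/

set_option autoImplicit false

open TopologicalSpace Set Filter Topology

namespace Pool.Agent.Results.MP_155eb7_gt.StrongLimitPowers

open PowersOfTheLine (CC Good good_nat good_seq DenseInItself BaseResolvable denseInItself_power)

/-! ### Coordinates -/

variable (A : Type) (E : ℕ → Type)

/-- the coordinates of level at most `n` -/
def L : ℕ → Type
  | 0 => (ℕ → Bool) × A
  | n + 1 => L n ⊕ (E n ⊕ (Finset (L n) ⊕ ((Finset (L n) → Bool) → ℕ)))

/-- the colourings of the finite sets of coordinates of level at most `n` -/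
abbrev D (n : ℕ) : Type := Finset (L A E n) → Bool

/-- all coordinates -/
abbrev K : Type := ((ℕ → Bool) × A) ⊕ (Σ n, (E n ⊕ (Finset (L A E n) ⊕ (D A E n → ℕ))))

variable {A E}

/-- the coordinates of level at most `n` as elements of `K` -/
def emb : (n : ℕ) → L A E n → K A E
  | 0, c => Sum.inl c
  | n + 1, c => Sum.elim (emb n) (fun x => Sum.inr ⟨n, x⟩) c

/-- the level of a coordinate -/
def lev : K A E → ℕ
  | Sum.inl _ => 0
  | Sum.inr x => x.1 + 1

theorem lev_emb (n : ℕ) : ∀ c : L A E n, lev (emb n c) ≤ n := by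
  induction n with
  | zero => intro c; exact le_rfl
  | succ n ih =>
    intro c
    rcases c with c | c
    · exact (ih c).trans (Nat.le_succ n)
    · exact le_rfl

theorem exists_emb (n : ℕ) : ∀ k : K A E, lev k ≤ n → ∃ c : L A E n, emb n c = k := by
  induction n with
  | zero =>
    rintro (k | k) hk
    · exact ⟨k, rfl⟩
    · simp [lev] at hk
  | succ n ih =>
    intro k hk
    rcases Nat.lt_or_ge (lev k) (n + 1) with h | h
    · obtain ⟨c, hc⟩ := ih k (Nat.lt_succ_iff.1 h)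
      exact ⟨Sum.inl c, hc⟩
    · rcases k with k | ⟨m, x⟩
      · simp [lev] at h
      · have hm : m = n := by
          have h1 : lev (Sum.inr ⟨m, x⟩ : K A E) = m + 1 := rfl
          omega
        subst hm
        exact ⟨Sum.inr x, rfl⟩

theorem good_L (hA : Good A) (hE : ∀ n, Good (E n)) (n : ℕ) : Good (L A E n) := by
  induction n with
  | zero => exact good_nat.pi.prod hA
  | succ n ih => exact ih.sum ((hE n).sum (ih.finset.sum ih.finset.pi.fnat))

variable (A E) in
/-- the sequences of colourings -/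
abbrev Y : Type := (n : ℕ) → D A E n

/-- the colour `false` is cofinal -/
def Cof (n : ℕ) (c : D A E n) : Prop := ∀ u, ∃ v, u ⊆ v ∧ c v = false

open Classical in
/-- the colour chosen at stage `n` -/
noncomputable def ii (y : Y A E) (n : ℕ) : Bool := !decide (Cof n (y n))

theorem exists_u (n : ℕ) (c : D A E n) : ∃ u, ¬ Cof n c → ∀ v, u ⊆ v → c v = true := by
  by_cases h : Cof n c
  · exact ⟨∅, fun h' => absurd h h'⟩
  · have h' := h
    unfold Cof at h'
    push Not at h'
    obtain ⟨u, h2⟩ := h'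
    refine ⟨u, fun _ v huv => ?_⟩
    simpa using h2 v huv

/-- if `false` is not cofinal, all supersets of this set have colour `true` -/
noncomputable def uu (n : ℕ) (c : D A E n) : Finset (L A E n) := (exists_u n c).choose
theorem uu_spec {n : ℕ} {c : D A E n} (h : ¬ Cof n c) {v : Finset (L A E n)}
    (huv : uu n c ⊆ v) : c v = true := (exists_u n c).choose_spec h v huv

/-- reserved coordinates -/
def R (y : Y A E) (n : ℕ) : Set (K A E) :=
  {k | ∃ τ a, k = Sum.inl (τ, a) ∧ (∀ m, ∃ j ≥ m, τ j = false) ∧ ∀ j ≤ n, τ j = ii y j}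

/-- accepted finite sets at stage `n` -/
def V (y : Y A E) (n : ℕ) : Set (Finset (L A E n)) :=
  {v | (Cof n (y n) → y n v = false) ∧
    (¬ Cof n (y n) → uu n (y n) ⊆ v ∧
      ∀ c ∈ v, emb n c ∈ R y n → ∃ c' ∈ uu n (y n), emb n c' = emb n c)}

open Classical in
/-- the point determined by `y` -/
noncomputable def p (y : Y A E) : K A E → ℝ
  | Sum.inl _ => 0
  | Sum.inr ⟨_, Sum.inl _⟩ => 0
  | Sum.inr ⟨n, Sum.inr (Sum.inl v)⟩ => if v ∈ V y n then 1 else 0
  | Sum.inr ⟨n, Sum.inr (Sum.inr f)⟩ => f (y n)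

open Classical in
/-- the indicator function of a colouring -/
noncomputable def δ {n : ℕ} (d : D A E n) : D A E n → ℕ := fun d' => if d' = d then 1 else 0

/-- the main members of the base -/
def Main (y : Y A E) (n : ℕ) (v : Finset (L A E n)) : Set (K A E → ℝ) :=
  {q | (∀ j < n, |q (Sum.inr ⟨j, Sum.inr (Sum.inr (δ (y j)))⟩) - 1| < 1 / 2) ∧
    (∀ c ∈ v, |q (emb n c) - p y (emb n c)| < 1 / ((n : ℝ) + 1)) ∧
    |q (Sum.inr ⟨n, Sum.inr (Sum.inl v)⟩) - 1| < 1 / 2}

variable (A E) in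
/-- the base -/
def Bs : Set (Set (K A E → ℝ)) :=
  {b | (∃ y n v, b = Main y n v) ∨ (IsOpen b ∧ ∀ y, p y ∉ b)}

theorem ii_congr {y y' : Y A E} {n : ℕ} (h : y n = y' n) : ii y n = ii y' n := by
  unfold ii; rw [h]

theorem R_congr {y y' : Y A E} {n : ℕ} (h : ∀ j ≤ n, y j = y' j) : R y n = R y' n := by
  ext x
  unfold R
  constructor
  · rintro ⟨τ, a, h1, h2, h3⟩
    exact ⟨τ, a, h1, h2, fun j hj => by rw [h3 j hj]; exact ii_congr (h j hj)⟩
  · rintro ⟨τ, a, h1, h2, h3⟩
    exact ⟨τ, a, h1, h2, fun j hj => by rw [h3 j hj]; exact (ii_congr (h j hj)).symm⟩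

theorem V_congr {y y' : Y A E} {n : ℕ} (h : ∀ j ≤ n, y j = y' j) : V y n = V y' n := by
  unfold V
  rw [h n le_rfl, R_congr h]

theorem p_congr {y y' : Y A E} {n : ℕ} (h : ∀ j < n, y j = y' j) (k : K A E) (hk : lev k ≤ n) :
    p y k = p y' k := by
  rcases k with k | ⟨m, e | v | f⟩
  · rfl
  · rfl
  · have h1 : m < n := hk
    have h2 : V y m = V y' m := V_congr (fun j hj => h j (by omega))
    have h3 : v ∈ V y m ↔ v ∈ V y' m := by rw [h2]
    by_cases h4 : v ∈ V y m
    · simp only [p, if_pos h4, if_pos (h3.1 h4)]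
    · simp only [p, if_neg h4, if_neg fun h5 => h4 (h3.2 h5)]
  · have h1 : m < n := hk
    simp only [p, h m h1]

theorem p_emb_congr {y y' : Y A E} {n : ℕ} (h : ∀ j < n, y j = y' j) (c : L A E n) :
    p y (emb n c) = p y' (emb n c) := p_congr h _ (lev_emb n c)

theorem Main_congr {y y' : Y A E} {n : ℕ} (h : ∀ j < n, y j = y' j) (v : Finset (L A E n)) :
    Main y n v = Main y' n v := by
  ext q
  unfold Main
  constructor
  · rintro ⟨h1, h2, h3⟩
    exact ⟨fun j hj => by rw [← h j hj]; exact h1 j hj,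
      fun x hx => by rw [← p_emb_congr h]; exact h2 x hx, h3⟩
  · rintro ⟨h1, h2, h3⟩
    exact ⟨fun j hj => by rw [h j hj]; exact h1 j hj,
      fun x hx => by rw [p_emb_congr h]; exact h2 x hx, h3⟩

theorem p_δ (y : Y A E) (j : ℕ) : p y (Sum.inr ⟨j, Sum.inr (Sum.inr (δ (y j)))⟩) = 1 := by
  simp [p, δ]

theorem eq_of_p_δ {y y' : Y A E} {j : ℕ}
    (h : |p y' (Sum.inr ⟨j, Sum.inr (Sum.inr (δ (y j)))⟩) - 1| < 1 / 2) : y' j = y j := by
  by_contra hne
  simp only [p, δ, if_neg hne, Nat.cast_zero, zero_sub, abs_neg, abs_one] at h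
  norm_num at h

theorem mem_V_of_p {y : Y A E} {n : ℕ} {v : Finset (L A E n)}
    (h : |p y (Sum.inr ⟨n, Sum.inr (Sum.inl v)⟩) - 1| < 1 / 2) : v ∈ V y n := by
  by_contra hne
  simp only [p, if_neg hne, zero_sub, abs_neg, abs_one] at h
  norm_num at h

theorem p_mem_Main {y : Y A E} {n : ℕ} {v : Finset (L A E n)} (hv : v ∈ V y n) :
    p y ∈ Main y n v := by
  refine ⟨fun j _ => ?_, fun c _ => ?_, ?_⟩
  · rw [p_δ]; norm_num
  · rw [sub_self, abs_zero]; positivity
  · simp only [p, if_pos hv]; norm_num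

theorem isOpen_coord (k : K A E) (t ε : ℝ) : IsOpen {q : K A E → ℝ | |q k - t| < ε} :=
  isOpen_lt (by fun_prop) continuous_const

theorem isOpen_Main (y : Y A E) (n : ℕ) (v : Finset (L A E n)) : IsOpen (Main y n v) := by
  have : Main y n v = (⋂ j ∈ Finset.range n,
      {q : K A E → ℝ | |q (Sum.inr ⟨j, Sum.inr (Sum.inr (δ (y j)))⟩) - 1| < 1 / 2}) ∩
      ((⋂ c ∈ v, {q : K A E → ℝ | |q (emb n c) - p y (emb n c)| < 1 / ((n : ℝ) + 1)}) ∩
        {q : K A E → ℝ | |q (Sum.inr ⟨n, Sum.inr (Sum.inl v)⟩) - 1| < 1 / 2}) := by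
    ext q; simp [Main]
  rw [this]
  refine IsOpen.inter ?_ (IsOpen.inter ?_ ?_)
  · exact isOpen_biInter_finset fun j _ => isOpen_coord _ _ _
  · exact isOpen_biInter_finset fun c _ => isOpen_coord _ _ _
  · exact isOpen_coord _ _ _

theorem isOpen_Bs {b : Set (K A E → ℝ)} (hb : b ∈ Bs A E) : IsOpen b := by
  rcases hb with ⟨y, n, v, rfl⟩ | ⟨h, _⟩
  · exact isOpen_Main y n v
  · exact h

/-- basic neighbourhoods -/
theorem exists_basic {O : Set (K A E → ℝ)} (hO : IsOpen O) {x : K A E → ℝ} (hx : x ∈ O) :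
    ∃ (F : Finset (K A E)) (ε : ℝ), 0 < ε ∧ ∀ q : K A E → ℝ, (∀ k ∈ F, |q k - x k| < ε) → q ∈ O := by
  classical
  obtain ⟨F, u, hu, hFU⟩ := isOpen_pi_iff.1 hO x hx
  have h1 : ∀ k ∈ F, ∃ ε > 0, ∀ t, |t - x k| < ε → t ∈ u k := by
    intro k hk
    obtain ⟨ε, hε, h⟩ := Metric.isOpen_iff.1 (hu k hk).1 (x k) (hu k hk).2
    exact ⟨ε, hε, fun t ht => h (by simpa [Real.dist_eq] using ht)⟩
  choose! e he1 he2 using h1
  by_cases hF : F.Nonempty
  · refine ⟨F, F.inf' hF e, (Finset.lt_inf'_iff hF).2 fun k hk => he1 k hk, fun q hq => hFU ?_⟩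
    intro k hk
    have hk' : k ∈ F := by simpa using hk
    exact he2 k hk' _ ((hq k hk').trans_le (Finset.inf'_le _ hk'))
  · refine ⟨F, 1, one_pos, fun q _ => hFU ?_⟩
    intro k hk
    exact absurd ⟨k, by simpa using hk⟩ hF

theorem R_anti {y : Y A E} {m n : ℕ} (h : m ≤ n) : R y n ⊆ R y m := by
  rintro x ⟨τ, a, h1, h2, h3⟩
  exact ⟨τ, a, h1, h2, fun j hj => h3 j (hj.trans h)⟩

theorem exists_lift {n : ℕ} {F : Finset (K A E)} (hF : ∀ k ∈ F, lev k ≤ n) :
    ∃ F' : Finset (L A E n), (∀ k ∈ F, ∃ c ∈ F', emb n c = k) ∧ ∀ c ∈ F', emb n c ∈ F := by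
  classical
  choose g hg using fun k : F => exists_emb n k.1 (hF k.1 k.2)
  refine ⟨Finset.univ.image g, fun k hk => ⟨g ⟨k, hk⟩, ?_, hg ⟨k, hk⟩⟩, fun c hc => ?_⟩
  · exact Finset.mem_image_of_mem _ (Finset.mem_univ _)
  · obtain ⟨k, -, rfl⟩ := Finset.mem_image.1 hc
    rw [hg k]; exact k.2

theorem served (y : Y A E) (F : Finset (K A E)) (m : ℕ) :
    ∃ n ≥ m, ∃ v ∈ V y n, ∀ k ∈ F, ∃ c ∈ v, emb n c = k := by
  classical
  set N := max m (F.sup lev) with hN
  have hF : ∀ n ≥ N, ∀ k ∈ F, lev k ≤ n := fun n hn k hk =>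
    (Finset.le_sup (f := lev) hk).trans ((le_max_right _ _).trans hn)
  by_cases hA : ∀ n, ∃ j ≥ n, Cof j (y j)
  · obtain ⟨n, hn, hc⟩ := hA N
    obtain ⟨F', hF', -⟩ := exists_lift (hF n hn)
    obtain ⟨v, hFv, hcv⟩ := hc F'
    refine ⟨n, (le_max_left _ _).trans hn, v, ⟨fun _ => hcv, fun h => absurd hc h⟩, ?_⟩
    intro k hk
    obtain ⟨c, hc1, hc2⟩ := hF' k hk
    exact ⟨c, hFv hc1, hc2⟩
  · push Not at hA
    obtain ⟨n0, h0⟩ := hA
    have key : ∀ k : K A E, ∃ n, k ∉ R y n := by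
      intro k
      by_contra hcon
      push Not at hcon
      obtain ⟨τ, a, hx, hτ, -⟩ := hcon 0
      have h1 : ∀ j, τ j = ii y j := by
        intro j
        obtain ⟨τ', a', hx', -, h3⟩ := hcon j
        have h4 := Sum.inl_injective (hx.symm.trans hx')
        rw [(Prod.mk.inj h4).1]
        exact h3 j le_rfl
      obtain ⟨j, hj, hj'⟩ := hτ n0
      rw [h1 j] at hj'
      simp [ii] at hj'
      exact h0 j hj hj'
    choose g hg using key
    set n := max (max N n0) (F.sup g) with hn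
    have hnN : N ≤ n := (le_max_left _ _).trans (le_max_left _ _)
    have hn0 : n0 ≤ n := (le_max_right _ _).trans (le_max_left _ _)
    obtain ⟨F', hF', hF''⟩ := exists_lift (hF n hnN)
    refine ⟨n, (le_max_left _ _).trans hnN, F' ∪ uu n (y n), ⟨?_, ?_⟩, ?_⟩
    · intro h
      exact absurd h (h0 n hn0)
    · intro _
      refine ⟨Finset.subset_union_right, fun x hx hxR => ?_⟩
      rcases Finset.mem_union.1 hx with hx | hx
      · exact absurd (R_anti ((Finset.le_sup (f := g) (hF'' x hx)).trans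
          (le_max_right _ _)) hxR) (hg _)
      · exact ⟨x, hx, rfl⟩
    · intro k hk
      obtain ⟨c, hc1, hc2⟩ := hF' k hk
      exact ⟨c, Finset.mem_union_left _ hc1, hc2⟩

/-- the set of the points `p y` is closed -/
theorem isClosed_graph (hA : Good A) (hE : ∀ n, Good (E n)) : IsClosed (range (p : Y A E → K A E → ℝ)) := by
  classical
  rw [isClosed_iff_clusterPt]
  intro q hq
  have hne : NeBot (comap (p : Y A E → K A E → ℝ) (𝓝 q)) := by
    rw [comap_neBot_iff]
    intro t ht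
    obtain ⟨_, h1, y, rfl⟩ := clusterPt_principal_iff.1 hq t ht
    exact ⟨y, h1⟩
  set W : Ultrafilter (Y A E) := Ultrafilter.of (comap (p : Y A E → K A E → ℝ) (𝓝 q)) with hW
  have hT : Tendsto (p : Y A E → K A E → ℝ) W (𝓝 q) :=
    tendsto_iff_comap.2 (Ultrafilter.of_le _)
  have hTk : ∀ k, Tendsto (fun y => p y k) W (𝓝 (q k)) := fun k => (tendsto_pi_nhds.1 hT) k
  -- a function to the natural numbers is constant on a member of the ultrafilter
  have hconst : ∀ n (f : D A E n → ℕ), ∃ m, {y : Y A E | f (y n) = m} ∈ W := by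
    intro n f
    have h1 := hTk (Sum.inr ⟨n, Sum.inr (Sum.inr f)⟩)
    have h2 : ∀ᶠ y in (W : Filter (Y A E)),
        |((f (y n) : ℕ) : ℝ) - q (Sum.inr ⟨n, Sum.inr (Sum.inr f)⟩)| < 1 / 2 := by
      have h3 := (Metric.tendsto_nhds.1 h1) (1 / 2) (by norm_num)
      filter_upwards [h3] with y hy
      simpa [Real.dist_eq, p] using hy
    obtain ⟨y0, hy0⟩ := h2.exists
    refine ⟨f (y0 n), ?_⟩
    filter_upwards [h2] with y hy
    have h4 : |((f (y n) : ℕ) : ℝ) - (f (y0 n) : ℕ)| < 1 := by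
      rw [abs_lt] at *
      constructor <;> linarith [hy.1, hy.2, hy0.1, hy0.2]
    have h5 : |((f (y n) : ℕ) : ℤ) - (f (y0 n) : ℕ)| < 1 := by
      exact_mod_cast h4
    have h6 := Int.abs_lt_one_iff.1 h5
    show f (y n) = f (y0 n)
    omega
  have hcc : ∀ n, CC (W.map fun y => y n) := by
    intro n S hS
    by_contra hcon
    let f : D A E n → ℕ := fun d => if h : ∃ i, d ∉ S i then Nat.find h + 1 else 0
    obtain ⟨m, hm⟩ := hconst n f
    rcases m with _ | i
    · apply hcon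
      rw [Ultrafilter.mem_map]
      filter_upwards [hm] with y hy
      rw [mem_preimage, mem_iInter]
      intro i
      by_contra hi
      have : f (y n) = Nat.find (⟨i, hi⟩ : ∃ i, y n ∉ S i) + 1 := dif_pos _
      have hy' : f (y n) = 0 := hy
      omega
    · have h1 : {y : Y A E | y n ∈ S i} ∈ W := by
        have := hS i
        rwa [Ultrafilter.mem_map] at this
      obtain ⟨y, hy1, hy2⟩ := W.nonempty_of_mem (inter_mem hm h1)
      by_cases h : ∃ i, y n ∉ S i
      · have h3 : f (y n) = Nat.find h + 1 := dif_pos h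
        have hy' : f (y n) = i + 1 := hy1
        have h4 := Nat.find_spec h
        rw [show Nat.find h = i by omega] at h4
        exact h4 hy2
      · have h3 : f (y n) = 0 := dif_neg h
        have hy' : f (y n) = i + 1 := hy1
        omega
  have hpr : ∀ n, ∃ d : D A E n, {y : Y A E | y n = d} ∈ W := by
    intro n
    obtain ⟨d, hd⟩ := (good_L hA hE n).finset.pi _ (hcc n)
    rw [Ultrafilter.mem_map] at hd
    exact ⟨d, hd⟩
  choose d hd using hpr
  refine ⟨d, ?_⟩
  funext k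
  have h1 : {y : Y A E | ∀ j < lev k, y j = d j} ∈ W := by
    have : {y : Y A E | ∀ j < lev k, y j = d j} = ⋂ j ∈ Finset.range (lev k), {y : Y A E | y j = d j} := by
      ext y; simp
    rw [this]
    exact (Filter.biInter_finset_mem _).2 fun j _ => hd j
  have h2 : Tendsto (fun y => p y k) W (𝓝 (p d k)) := by
    refine Tendsto.congr' ?_ tendsto_const_nhds
    filter_upwards [h1] with y hy
    exact (p_congr hy k le_rfl).symm
  exact tendsto_nhds_unique h2 (hTk k)

theorem isBasis_Bs (hA : Good A) (hE : ∀ n, Good (E n)) : IsTopologicalBasis (Bs A E) := by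
  refine isTopologicalBasis_of_isOpen_of_nhds (fun b hb => isOpen_Bs hb) ?_
  intro x O hx hO
  by_cases hk : x ∈ range (p : Y A E → K A E → ℝ)
  · obtain ⟨y, rfl⟩ := hk
    obtain ⟨F, ε, hε, hF⟩ := exists_basic hO hx
    obtain ⟨m, hm⟩ := exists_nat_one_div_lt hε
    obtain ⟨n, hn, v, hv, hFv⟩ := served y F m
    refine ⟨Main y n v, Or.inl ⟨y, n, v, rfl⟩, p_mem_Main hv, ?_⟩
    rintro q ⟨-, h2, -⟩
    refine hF q fun k hk => ?_
    obtain ⟨c, hc, rfl⟩ := hFv k hk
    refine (h2 c hc).trans (lt_of_le_of_lt ?_ hm)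
    apply one_div_le_one_div_of_le (by positivity)
    have : (m : ℝ) ≤ n := by exact_mod_cast hn
    linarith
  · refine ⟨O ∩ (range (p : Y A E → K A E → ℝ))ᶜ,
      Or.inr ⟨hO.inter (isClosed_graph hA hE).isOpen_compl, ?_⟩, ⟨hx, hk⟩, inter_subset_left⟩
    rintro y' ⟨-, h⟩
    exact h ⟨y', rfl⟩

theorem exists_play (c : Set (K A E → ℝ) → Bool) :
    ∃ y : Y A E, ∀ n v, y n v = c (Main y n v) := by
  classical
  let ys : ℕ → Y A E := fun n => Nat.rec (fun _ _ => false)
    (fun n y => Function.update y n (fun v => c (Main y n v))) n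
  have hys : ∀ n, ys (n + 1) = Function.update (ys n) n (fun v => c (Main (ys n) n v)) :=
    fun n => rfl
  have hst : ∀ n j, j < n → ys n j = ys (j + 1) j := by
    intro n
    induction n with
    | zero => intro j hj; omega
    | succ n ih =>
      intro j hj
      by_cases hjn : j = n
      · subst hjn; rfl
      · rw [hys n, Function.update_of_ne hjn]
        exact ih j (by omega)
  refine ⟨fun n => ys (n + 1) n, fun n v => ?_⟩
  have h1 : Main (fun n => ys (n + 1) n) n v = Main (ys n) n v :=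
    Main_congr (fun j hj => (hst n j hj).symm) v
  rw [h1]
  show (ys (n + 1) n) v = _
  rw [hys n]
  simp

theorem mem_Bs_graph {b : Set (K A E → ℝ)} (hb : b ∈ Bs A E) {y : Y A E} (hy : p y ∈ b) :
    ∃ n, ∃ v ∈ V y n, b = Main y n v := by
  rcases hb with ⟨y', n, v, rfl⟩ | ⟨-, h⟩
  · have h1 : ∀ j < n, y j = y' j := fun j hj => eq_of_p_δ (hy.1 j hj)
    exact ⟨n, v, mem_V_of_p hy.2.2, Main_congr (fun j hj => (h1 j hj).symm) v⟩
  · exact absurd hy (h y)

theorem V_color {y : Y A E} {n : ℕ} {v : Finset (L A E n)} (hv : v ∈ V y n) :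
    y n v = ii y n := by
  obtain ⟨h2, h3⟩ := hv
  by_cases h : Cof n (y n)
  · rw [h2 h]; simp [ii, h]
  · rw [uu_spec h (h3 h).1]; simp [ii, h]

theorem mem_of_subset {y : Y A E} {n : ℕ} {v : Finset (L A E n)} (hv : v ∈ V y n) {ξ : K A E}
    (h : ∀ q ∈ Main y n v, |q ξ - p y ξ| < 1) :
    (∃ j < n, ξ = Sum.inr ⟨j, Sum.inr (Sum.inr (δ (y j)))⟩) ∨ (∃ c ∈ v, emb n c = ξ) ∨
      ξ = Sum.inr ⟨n, Sum.inr (Sum.inl v)⟩ := by
  classical
  by_contra hcon
  push Not at hcon
  obtain ⟨h1, h2, h3⟩ := hcon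
  have hp := p_mem_Main hv
  have hm : Function.update (p y) ξ (p y ξ + 1) ∈ Main y n v := by
    refine ⟨fun j hj => ?_, fun c hc => ?_, ?_⟩
    · rw [Function.update_of_ne (h1 j hj).symm]; exact hp.1 j hj
    · rw [Function.update_of_ne (h2 c hc)]; exact hp.2.1 c hc
    · rw [Function.update_of_ne (Ne.symm h3)]; exact hp.2.2
  have := h _ hm
  simp at this

theorem not_resolvable [Uncountable A] : ¬ ∃ B₀ B₁ : Set (Set (K A E → ℝ)),
    B₀ ∪ B₁ = Bs A E ∧ B₀ ∩ B₁ = ∅ ∧ IsTopologicalBasis B₀ ∧ IsTopologicalBasis B₁ := by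
  classical
  rintro ⟨B₀, B₁, hU, hD, hB0, hB1⟩
  obtain ⟨y, hy⟩ := exists_play (A := A) (E := E) (fun b => decide (b ∈ B₁))
  have hcol : ∀ n, ∀ v ∈ V y n, decide (Main y n v ∈ B₁) = ii y n := fun n v hv =>
    (hy n v).symm.trans (V_color hv)
  have hB0s : B₀ ⊆ Bs A E := hU ▸ subset_union_left
  have hB1s : B₁ ⊆ Bs A E := hU ▸ subset_union_right
  by_cases hA : ∀ n, ∃ j ≥ n, ii y j = false
  · -- the second family fails
    have hcount : {a : A | ∃ n, ∃ c ∈ uu n (y n), emb n c = Sum.inl (ii y, a)}.Countable := by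
      have : {a : A | ∃ n, ∃ c ∈ uu n (y n), emb n c = Sum.inl (ii y, a)} =
          ⋃ n, {a : A | ∃ c ∈ uu n (y n), emb n c = Sum.inl (ii y, a)} := by
        ext a; simp
      rw [this]
      refine countable_iUnion fun n => Set.Finite.countable ?_
      have hinj : Function.Injective (fun a : A => (Sum.inl (ii y, a) : K A E)) := by
        intro a b hab
        exact (Prod.mk.inj (Sum.inl_injective hab)).2
      have hfin := ((uu n (y n)).image (emb n)).finite_toSet.preimage
        (f := fun a : A => (Sum.inl (ii y, a) : K A E)) hinj.injOn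
      refine hfin.subset fun a ha => ?_
      obtain ⟨c, hc1, hc2⟩ := ha
      simp only [mem_preimage, Finset.coe_image, mem_image]
      exact ⟨c, hc1, hc2⟩
    obtain ⟨a, ha⟩ : ∃ a : A,
        a ∉ {a : A | ∃ n, ∃ c ∈ uu n (y n), emb n c = Sum.inl (ii y, a)} := by
      by_contra hcon
      push Not at hcon
      have : (univ : Set A) ⊆ {a : A | ∃ n, ∃ c ∈ uu n (y n), emb n c = Sum.inl (ii y, a)} :=
        fun a _ => hcon a
      exact not_countable_univ (hcount.mono this)
    set ξ : K A E := Sum.inl (ii y, a) with hξ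
    obtain ⟨b, hb, hyb, hbq⟩ := hB1.exists_subset_of_mem_open
      (show p y ∈ {q : K A E → ℝ | |q ξ - p y ξ| < 1} by simp) (isOpen_coord ξ _ _)
    obtain ⟨n, v, hv, rfl⟩ := mem_Bs_graph (hB1s hb) hyb
    have hi : ii y n = true := by rw [← hcol n v hv]; exact decide_eq_true hb
    have hc : ¬ Cof n (y n) := by simpa [ii] using hi
    rcases mem_of_subset hv (fun q hq => hbq hq) with ⟨j, -, hj⟩ | ⟨c, hc1, hc2⟩ | h3
    · simp at hj
    · have hR : emb n c ∈ R y n := ⟨ii y, a, hc2, hA, fun j _ => rfl⟩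
      obtain ⟨c', hc', he⟩ := (hv.2 hc).2 c hc1 hR
      exact ha ⟨n, c', hc', he.trans hc2⟩
    · simp at h3
  · push Not at hA
    obtain ⟨n0, h0⟩ := hA
    obtain ⟨ξ, hξ⟩ : ∃ ξ : K A E, ξ = Sum.inr ⟨n0, Sum.inr (Sum.inr fun _ => 0)⟩ := ⟨_, rfl⟩
    have hlev : lev ξ = n0 + 1 := by rw [hξ]; rfl
    obtain ⟨b, hb, hyb, hbq⟩ := hB0.exists_subset_of_mem_open
      (show p y ∈ {q : K A E → ℝ | |q ξ - p y ξ| < 1} by simp) (isOpen_coord ξ _ _)
    obtain ⟨n, v, hv, rfl⟩ := mem_Bs_graph (hB0s hb) hyb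
    have hn : n0 ≤ n := by
      rcases mem_of_subset hv (fun q hq => hbq hq) with ⟨j, hj1, hj⟩ | ⟨c, hc1, hc2⟩ | h3
      · have h5 : lev ξ = j + 1 := by rw [hj]; rfl
        omega
      · have h5 := lev_emb n c
        rw [hc2] at h5
        omega
      · have h5 : lev ξ = n + 1 := by rw [h3]; rfl
        omega
    have h1 : ii y n = true := by simpa using h0 n hn
    have h2 : Main y n v ∈ B₁ := by
      have := hcol n v hv
      rw [h1] at this
      exact of_decide_eq_true this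
    exact absurd (show Main y n v ∈ B₀ ∩ B₁ from ⟨hb, h2⟩) (by rw [hD]; exact notMem_empty _)

theorem not_baseResolvable (hA : Good A) (hE : ∀ n, Good (E n)) [Uncountable A] :
    ¬ BaseResolvable (K A E → ℝ) :=
  fun h => not_resolvable (h (Bs A E) (isBasis_Bs hA hE))


/-! ### Sets on which all countably complete ultrafilters are principal -/

open Cardinal Ordinal

theorem good_of_le {X Y : Type} (hY : Good Y) (h : #X ≤ #Y) : Good X := by
  obtain ⟨e⟩ := h
  exact hY.inj e e.injective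

theorem good_sigma {I : Type} {X : I → Type} (hI : Good I) (hX : ∀ i, Good (X i)) :
    Good (Σ i, X i) := by
  classical
  intro U hU
  obtain ⟨i0, hi0⟩ := hI _ (hU.map Sigma.fst)
  rw [Ultrafilter.mem_map] at hi0
  obtain ⟨z0, hz0⟩ := U.nonempty_of_mem hi0
  have hz0' : z0.1 = i0 := hz0
  let g : (Σ i, X i) → X i0 := fun z => if h : z.1 = i0 then h ▸ z.2 else hz0' ▸ z0.2
  obtain ⟨x, hx⟩ := hX i0 _ (hU.map g)
  rw [Ultrafilter.mem_map] at hx
  refine ⟨⟨i0, x⟩, ?_⟩
  filter_upwards [hi0, hx] with z h1 h2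
  obtain ⟨i, y⟩ := z
  have h1' : i = i0 := h1
  subst h1'
  have h2' : g ⟨i, y⟩ = x := h2
  have h3 : g ⟨i, y⟩ = y := dif_pos rfl
  rw [h3] at h2'
  rw [h2']
  rfl

/-- Ulam: below the first inaccessible cardinal all countably complete ultrafilters are
principal. -/
theorem good_of_lt_inaccessible (c : Cardinal.{0}) :
    (∀ κ : Cardinal.{0}, κ.IsInaccessible → c < κ) → ∀ X : Type, #X = c → Good X := by
  induction c using WellFoundedLT.induction with
  | ind c ih =>
    intro hin X hX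
    have ih' : ∀ b < c, Good b.out := fun b hb =>
      ih b hb (fun κ hκ => hb.trans (hin κ hκ)) _ (mk_out b)
    by_cases h0 : c ≤ ℵ₀
    · refine good_of_le good_nat ?_
      rw [hX, mk_nat]
      exact h0
    push Not at h0
    by_cases h1 : ∃ b < c, c ≤ 2 ^ b
    · obtain ⟨b, hb, hcb⟩ := h1
      refine good_of_le (ih' b hb).pi ?_
      rw [hX]
      refine hcb.trans ?_
      simp
    push Not at h1
    have hsing : c.ord.cof < c := by
      by_contra hreg
      push Not at hreg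
      exact lt_irrefl _ (hin c ⟨h0, hreg, fun x hx => h1 x hx⟩)
    obtain ⟨S, hS, hSc⟩ := Order.exists_cof_eq (α := c.ord.ToType)
    rw [Ordinal.cof_toType] at hSc
    have hSg : Good S := by
      refine good_of_le (ih' _ hsing) ?_
      rw [mk_out, hSc]
    have hlt : ∀ s : S, (Ordinal.ToType.mk.symm s.1).1.card < c := fun s =>
      Cardinal.lt_ord.1 (Ordinal.ToType.mk.symm s.1).2
    refine good_of_le (good_sigma (X := fun s : S => ((Ordinal.ToType.mk.symm s.1).1.card).out)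
      hSg (fun s => ih' _ (hlt s))) ?_
    rw [hX]
    by_contra hcon
    push Not at hcon
    have h2 := h1 _ hcon
    obtain ⟨s, hs, has⟩ := hS (Ordinal.ToType.mk ⟨_, Cardinal.ord_lt_ord.2 h2⟩)
    rw [← OrderIso.le_symm_apply] at has
    have h3 := Ordinal.card_le_card (show _ ≤ (Ordinal.ToType.mk.symm s).1 from has)
    rw [Cardinal.card_ord] at h3
    have h4 : #(((Ordinal.ToType.mk.symm s).1.card).out) ≤
        #(Σ s : S, ((Ordinal.ToType.mk.symm s.1).1.card).out) :=
      mk_le_of_injective (f := fun x => (⟨⟨s, hs⟩, x⟩ :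
        Σ s : S, ((Ordinal.ToType.mk.symm s.1).1.card).out)) (fun x y h => by simpa using h)
    rw [mk_out] at h4
    exact absurd (h3.trans h4) (not_le.2 (cantor _))

/-! ### Cardinalities -/

/-- A cofinal sequence of cardinals. -/
theorem exists_seq {κ : Cardinal.{0}} (hcof : κ.ord.cof = ℵ₀) :
    ∃ c : ℕ → Cardinal.{0}, (∀ n, c n < κ) ∧ ∀ μ < κ, ∃ n, μ ≤ c n := by
  rw [← Ordinal.cof_toType] at hcof
  obtain ⟨s, hs, hsc⟩ := Order.exists_cof_eq (α := κ.ord.ToType)
  rw [hcof] at hsc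
  have : Nonempty (ℕ ≃ s) := by
    rw [← Cardinal.eq, hsc, Cardinal.mk_nat]
  obtain ⟨e⟩ := this
  refine ⟨fun n => (Ordinal.ToType.mk.symm (e n).1).1.card, fun n => ?_, fun μ hμ => ?_⟩
  · exact Cardinal.lt_ord.1 (Ordinal.ToType.mk.symm (e n).1).2
  · obtain ⟨y, hy, hxy⟩ := hs (Ordinal.ToType.mk ⟨μ.ord, Cardinal.ord_lt_ord.2 hμ⟩)
    refine ⟨e.symm ⟨y, hy⟩, ?_⟩
    simp only [Equiv.apply_symm_apply]
    have h1 : (⟨μ.ord, Cardinal.ord_lt_ord.2 hμ⟩ : Set.Iio κ.ord) ≤ Ordinal.ToType.mk.symm y := by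
      rw [OrderIso.le_symm_apply]
      exact hxy
    have h2 := Ordinal.card_le_card (show μ.ord ≤ (Ordinal.ToType.mk.symm y).1 from h1)
    rwa [Cardinal.card_ord] at h2

theorem mk_finset_lt {κ : Cardinal.{0}} (hp : ∀ x < κ, (2 : Cardinal.{0}) ^ x < κ) {X : Type}
    (hX : #X < κ) : #(Finset X) < κ := by
  classical
  refine lt_of_le_of_lt ?_ (hp _ hX)
  rw [← mk_set]
  exact mk_le_of_injective (f := fun s : Finset X => (s : Set X)) Finset.coe_injective

theorem mk_fnat_lt {κ : Cardinal.{0}} (hκ : ℵ₀ < κ) (hp : ∀ x < κ, (2 : Cardinal.{0}) ^ x < κ)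
    {X : Type} (hX : #X < κ) : #(X → ℕ) < κ := by
  have h1 : #(X → ℕ) = ℵ₀ ^ #X := by simp
  rw [h1]
  refine lt_of_le_of_lt ?_ (hp _ (mul_lt_of_lt hκ.le hκ hX))
  rw [power_mul]
  exact power_le_power_right (cantor ℵ₀).le

theorem mk_L_lt {κ : Cardinal.{0}} (hκ : ℵ₀ < κ) (hp : ∀ x < κ, (2 : Cardinal.{0}) ^ x < κ)
    {A : Type} {E : ℕ → Type} (hA : #A < κ) (hE : ∀ n, #(E n) < κ) (n : ℕ) :
    #(L A E n) < κ := by
  induction n with
  | zero =>
    have h1 : #((ℕ → Bool) × A) < κ := by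
      rw [← mul_def]
      refine mul_lt_of_lt hκ.le ?_ hA
      have h2 : #(ℕ → Bool) = 2 ^ ℵ₀ := by simp
      rw [h2]
      exact hp _ hκ
    exact h1
  | succ n ih =>
    show #(L A E n ⊕ (E n ⊕ (Finset (L A E n) ⊕ ((Finset (L A E n) → Bool) → ℕ)))) < κ
    rw [mk_sum, mk_sum, mk_sum]
    simp only [Cardinal.lift_id]
    have h1 := mk_finset_lt hp ih
    have h2 : #(Finset (L A E n) → Bool) < κ := by
      have h3 : #(Finset (L A E n) → Bool) = 2 ^ #(Finset (L A E n)) := by simp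
      rw [h3]
      exact hp _ h1
    exact add_lt_of_lt hκ.le ih (add_lt_of_lt hκ.le (hE n) (add_lt_of_lt hκ.le h1
      (mk_fnat_lt hκ hp h2)))

theorem mk_K {κ : Cardinal.{0}} (hκ : ℵ₀ < κ) (hp : ∀ x < κ, (2 : Cardinal.{0}) ^ x < κ)
    {A : Type} {c : ℕ → Cardinal.{0}} (hA : #A < κ) (hc : ∀ n, c n < κ)
    (hcof : ∀ μ < κ, ∃ n, μ ≤ c n) : #(K A (fun n => (c n).out)) = κ := by
  have hE : ∀ n, #((c n).out) < κ := fun n => by rw [mk_out]; exact hc n
  apply le_antisymm
  · rw [mk_sum, Cardinal.lift_id, Cardinal.lift_id]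
    refine add_le_of_le hκ.le (mk_L_lt hκ hp hA hE 0).le ?_
    rw [mk_sigma]
    refine (sum_le_sum _ (fun _ => κ) (fun n => ?_)).trans ?_
    · have h1 := mk_L_lt hκ hp hA hE (n + 1)
      refine le_trans ?_ h1.le
      exact mk_le_of_injective (f := fun x => (Sum.inr x : L A (fun n => (c n).out) (n + 1)))
        Sum.inr_injective
    · rw [sum_const, Cardinal.lift_id, Cardinal.lift_id, mk_nat]
      exact (mul_le_mul' hκ.le le_rfl).trans (mul_eq_self hκ.le).le
  · by_contra hlt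
    push Not at hlt
    obtain ⟨n, hn⟩ := hcof _ (hp _ hlt)
    have h1 : #((c n).out) ≤ #(K A (fun n => (c n).out)) :=
      mk_le_of_injective (f := fun x => (Sum.inr ⟨n, Sum.inl x⟩ : K A (fun n => (c n).out)))
        (fun x y h => by simpa using h)
    rw [mk_out] at h1
    exact absurd (hn.trans h1) (not_le.2 (cantor _))

/-! ### Homeomorphic copies -/

theorem baseResolvable_congr {X Y : Type} [TopologicalSpace X] [TopologicalSpace Y] (h : X ≃ₜ Y)
    (hX : BaseResolvable X) : BaseResolvable Y := by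
  intro B hB
  have hB' : IsTopologicalBasis ((preimage h) '' B) := hB.isInducing h.isInducing
  obtain ⟨B₀, B₁, hU, hD, h0, h1⟩ := hX _ hB'
  have hinj : Function.Injective (preimage h.symm) := h.symm.surjective.preimage_injective
  refine ⟨(preimage h.symm) '' B₀, (preimage h.symm) '' B₁, ?_, ?_,
    h0.isInducing h.symm.isInducing, h1.isInducing h.symm.isInducing⟩
  · rw [← image_union, hU, ← image_comp]
    have : (preimage h.symm) ∘ (preimage h) = (id : Set Y → Set Y) := by
      funext s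
      ext y
      simp
    rw [this, image_id]
  · rw [← image_inter hinj, hD, image_empty]

/-- **Powers of the real line which are not base resolvable.** Let `κ` be an uncountable strong
limit cardinal of countable cofinality such that every countably complete ultrafilter on a set of
cardinality less than `κ` is principal, i.e. `κ` does not exceed the first measurable cardinal; by
the second part this is so if `κ` does not exceed the first inaccessible cardinal. Then the space
`ℝ^κ` is not base resolvable. -/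
theorem result :
    (∀ κ : Cardinal.{0}, κ.IsStrongLimit → ℵ₀ < κ → κ.ord.cof = ℵ₀ →
      (∀ A : Type, #A < κ → Good A) → ∀ K : Type, #K = κ →
      DenseInItself (K → ℝ) ∧ ¬ BaseResolvable (K → ℝ)) ∧
    (∀ κ : Cardinal.{0}, κ.IsStrongLimit → ℵ₀ < κ → κ.ord.cof = ℵ₀ →
      (∀ μ : Cardinal.{0}, μ.IsInaccessible → κ ≤ μ) → ∀ K : Type, #K = κ →
      DenseInItself (K → ℝ) ∧ ¬ BaseResolvable (K → ℝ)) := by
  have key : ∀ κ : Cardinal.{0}, κ.IsStrongLimit → ℵ₀ < κ → κ.ord.cof = ℵ₀ →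
      (∀ A : Type, #A < κ → Good A) → ∀ K : Type, #K = κ →
      DenseInItself (K → ℝ) ∧ ¬ BaseResolvable (K → ℝ) := by
    intro κ hsl hκ hcof hgood K' hK'
    have hne : Nonempty K' := by
      rw [← mk_ne_zero_iff, hK']
      exact (aleph0_pos.trans hκ).ne'
    refine ⟨denseInItself_power, ?_⟩
    have hp : ∀ x < κ, (2 : Cardinal.{0}) ^ x < κ := fun x hx => hsl.isStrongPrelimit hx
    obtain ⟨c, hc1, hc2⟩ := exists_seq hcof
    have hA : #(ℕ → Bool) < κ := by
      have h2 : #(ℕ → Bool) = 2 ^ ℵ₀ := by simp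
      rw [h2]
      exact hp _ hκ
    have hK := mk_K hκ hp hA hc1 hc2
    have he : Nonempty (K (ℕ → Bool) (fun n => (c n).out) ≃ K') := by
      rw [← Cardinal.eq, hK, hK']
    obtain ⟨e⟩ := he
    intro hr
    have hh : (K' → ℝ) ≃ₜ (K (ℕ → Bool) (fun n => (c n).out) → ℝ) :=
      (Homeomorph.piCongrLeft (Y := fun _ => ℝ) e).symm
    exact not_baseResolvable good_seq (fun n => hgood _ (by rw [mk_out]; exact hc1 n))
      (baseResolvable_congr hh hr)
  refine ⟨key, fun κ hsl hκ hcof hin K' hK' => key κ hsl hκ hcof (fun A hA => ?_) K' hK'⟩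
  exact good_of_lt_inaccessible _ (fun μ hμ => hA.trans_le (hin μ hμ)) A rfl

end Pool.Agent.Results.MP_155eb7_gt.StrongLimitPowers
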